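import Pool.Agent.Helper10.PL.Lin
import Pool.Agent.Helper45.BT.Open
import Pool.Agent.Helper45.PLN.Cert

/-!
# Project BERTINI: the certificates (block CERT)

At the special curve the relations have the property NOE, so every question about monomials of degree at most
`M` reduces to the plane polynomials in `x`, `y`, for which it was answered in Helper45/PLN/Cert.
-/

universe u v w

namespace Pool.Agent.BT

open MvPolynomial

section spanning

variable {A : Type u} [Field A]

theorem mem_span_iffV45 {n : ℕ} {I : Type} [Fintype I] (col : I → MvPolynomial (Fin n) A)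
    (P : MvPolynomial (Fin n) A) :
    P ∈ Submodule.span A (Set.range col) ↔ ∃ c : I → A, P = ∑ i, C (c i) * col i := by
  rw [Submodule.mem_span_range_iff_exists_fun]
  constructor
  · rintro ⟨c, rfl⟩
    exact ⟨c, Finset.sum_congr rfl fun i _ => by rw [smul_eq_C_mul]⟩
  · rintro ⟨c, rfl⟩
    exact ⟨c, Finset.sum_congr rfl fun i _ => by rw [smul_eq_C_mul]⟩

/-- multiples -/
theorem mul_memV45 {n : ℕ} {S : Submodule A (MvPolynomial (Fin n) A)} {m : ℕ}
    {G : MvPolynomial (Fin n) A} (hS : ∀ a : MonV n m, monomial a.1 1 * G ∈ S)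
    {P : MvPolynomial (Fin n) A} (hP : P.totalDegree ≤ m) : P * G ∈ S := by
  obtain ⟨g, rfl⟩ := exists_pol hP
  unfold pol
  rw [Finset.sum_mul]
  refine Submodule.sum_mem _ fun q _ => ?_
  have h1 : (monomial q.1 (g q) * G : MvPolynomial (Fin n) A) = g q • (monomial q.1 1 * G) := by
    rw [smul_eq_C_mul, ← mul_assoc, C_mul_monomial, mul_one]
  rw [h1]
  exact Submodule.smul_mem _ _ (hS q)

/-- the plane polynomials whose products with a monomial are in `S` -/
noncomputable def planeS45 {N : ℕ} (S : Submodule A (MvPolynomial (Fin (N + 2)) A))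
    (s : Fin (N + 2) →₀ ℕ) : Submodule A (MvPolynomial (Fin 2) A) :=
  S.comap ((LinearMap.mulRight A (monomial s (1 : A))) ∘ₗ
    (aeval ![X 0, X 1] : MvPolynomial (Fin 2) A →ₐ[A] MvPolynomial (Fin (N + 2)) A).toLinearMap)

theorem mem_planeS45 {N : ℕ} {S : Submodule A (MvPolynomial (Fin (N + 2)) A)}
    {s : Fin (N + 2) →₀ ℕ} {P : MvPolynomial (Fin 2) A} :
    P ∈ planeS45 S s ↔ inc N P * monomial s 1 ∈ S := Iff.rfl

/-- all polynomials of degree at most `M` from the plane ones -/
theorem plane_all45 {S : Submodule A (MvPolynomial (Fin 2) A)} {m : ℕ}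
    (hS : ∀ q : PC.Mon m, PC.mono A q ∈ S) {P : MvPolynomial (Fin 2) A} (hP : P.totalDegree ≤ m) :
    P ∈ S := by
  have h1 := PC.mul_mem45 (S := S) (G := 1) (m := m) (fun a => by rw [mul_one]; exact hS a) hP
  rwa [mul_one] at h1

/-- reduction to the plane by NOE -/
theorem noe_span45 {N c M : ℕ} {U : Type} [Fintype U] {e : U → ℕ}
    {rel : ∀ u, MonV (N + 2) (e u) → A} (hrel : Noe rel c)
    {S : Submodule A (MvPolynomial (Fin (N + 2)) A)}
    (hS1 : ∀ u, ∀ a : MonV (N + 2) (M - e u), monomial a.1 1 * pol (rel u) ∈ S)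
    (hS2 : ∀ s : Fin (N + 2) →₀ ℕ, s.degree ≤ c → s.degree ≤ M → ∀ q : PC.Mon (M - s.degree),
      PC.mono A q ∈ planeS45 S s) (q : MonV (N + 2) M) : monomial q.1 1 ∈ S := by
  obtain ⟨a, b, ha, hb, h⟩ := hrel M (monomial q.1 1) (by
    refine (totalDegree_monomial_le _ _).trans ?_
    have h1 := q.2
    rwa [Finsupp.degree_apply] at h1)
  rw [h]
  refine S.add_mem (Submodule.sum_mem _ fun s _ => ?_) (Submodule.sum_mem _ fun u _ => ?_)
  · by_cases h0 : a s = 0
    · rw [h0, map_zero, zero_mul]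
      exact S.zero_mem
    · have h1 := ha s h0
      have h2 : a s ∈ planeS45 S s.1 := by
        refine plane_all45 (hS2 s.1 s.2 (by omega)) (by omega)
      exact mem_planeS45.1 h2
  · by_cases h0 : b u = 0
    · rw [h0, zero_mul]
      exact S.zero_mem
    · have h1 := hb u h0
      exact mul_memV45 (hS1 u) (by omega)

/-- multiples by plane monomials times a monomial -/
theorem plane_mul45 {N m m' : ℕ} {S : Submodule A (MvPolynomial (Fin (N + 2)) A)}
    {s : Fin (N + 2) →₀ ℕ} (hs : m + s.degree ≤ m') {G : MvPolynomial (Fin 2) A}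
    (hS : ∀ a : MonV (N + 2) m', monomial a.1 1 * inc N G ∈ S) (q : PC.Mon m) :
    PC.mono A q * G ∈ planeS45 S s := by
  rw [mem_planeS45, map_mul]
  have h1 : inc N (PC.mono A q) * inc N G * monomial s 1 =
      (inc N (PC.mono A q) * monomial s 1) * inc N G := by ring
  rw [h1]
  refine mul_memV45 hS ((totalDegree_mul _ _).trans ?_)
  have h2 := totalDegree_inc_le (N := N) (PC.deg_mono45 (R := A) q)
  have h3 : (monomial s (1 : A)).totalDegree ≤ s.degree := by
    refine (totalDegree_monomial_le _ _).trans ?_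
    rw [Finsupp.degree_apply]
    exact le_rfl
  omega

/-- no point on `x = z = 0` at the special curve -/
theorem sp_fin45 {N d M : ℕ} (hd : 0 < d) {S : Submodule A (MvPolynomial (Fin (N + 2)) A)}
    {s : Fin (N + 2) →₀ ℕ} (hM : s.degree + d ≤ M) {T : A} (γ : Fin d → A)
    (hS1 : ∀ a : MonV (N + 2) (M - 1), monomial a.1 1 * X 0 ∈ S)
    (hS2 : ∀ a : MonV (N + 2) (M - 1), monomial a.1 1 ∈ S)
    (hS3 : ∀ a : MonV (N + 2) (M - d), monomial a.1 1 * inc N (PC.f0 γ T) ∈ S)
    (q : PC.Mon (M - s.degree)) : PC.mono A q ∈ planeS45 S s := by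
  have hlow : ∀ {P : MvPolynomial (Fin 2) A}, P.totalDegree ≤ M - 1 - s.degree →
      P ∈ planeS45 S s := by
    intro P hP
    refine plane_all45 (fun q => ?_) hP
    have h1 := plane_mul45 (N := N) (S := S) (s := s) (G := 1) (m := M - 1 - s.degree)
      (m' := M - 1) (by omega) (fun a => by
        rw [show inc N (1 : MvPolynomial (Fin 2) A) = 1 from map_one _, mul_one]
        exact hS2 a) q
    rwa [mul_one] at h1
  have hx : ∀ {P : MvPolynomial (Fin 2) A}, P.totalDegree ≤ M - 1 - s.degree →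
      P * X 0 ∈ planeS45 S s := by
    intro P hP
    refine PC.mul_mem45 (fun q => ?_) hP
    exact plane_mul45 (N := N) (S := S) (s := s) (G := X 0) (m := M - 1 - s.degree)
      (m' := M - 1) (by omega) (fun a => by rw [inc_X0]; exact hS1 a) q
  obtain ⟨⟨i, j⟩, hij⟩ := q
  unfold PC.mono
  show (X 0 ^ (i : ℕ) * X 1 ^ (j : ℕ) : MvPolynomial (Fin 2) A) ∈ planeS45 S s
  have hij' : (i : ℕ) + (j : ℕ) ≤ M - s.degree := hij
  rcases Nat.eq_zero_or_pos (i : ℕ) with hi | hi
  · rw [hi, pow_zero, one_mul]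
    by_cases hj : (j : ℕ) ≤ M - 1 - s.degree
    · refine hlow ?_
      rw [totalDegree_X_pow]
      exact hj
    · push Not at hj
      -- `h` as a polynomial in `y`
      obtain ⟨H, hH⟩ : ∃ H : Polynomial A, H = ∏ j, (Polynomial.X - Polynomial.C (γ j)) := ⟨_, rfl⟩
      have hHm : H.Monic := by
        rw [hH]
        exact Polynomial.monic_prod_of_monic _ _ fun j _ => Polynomial.monic_X_sub_C _
      have hHd : H.natDegree = d := by
        rw [hH, Polynomial.natDegree_finsetProd_X_sub_C_eq_card]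
        simp
      have hHa : Polynomial.aeval (X 1 : MvPolynomial (Fin 2) A) H = ∏ j, (X 1 - C (γ j)) := by
        rw [hH, map_prod]
        refine Finset.prod_congr rfl fun k _ => ?_
        rw [map_sub, Polynomial.aeval_X, Polynomial.aeval_C]
        rfl
      obtain ⟨E, hE⟩ : ∃ E : Polynomial A, E = Polynomial.X ^ d - H := ⟨_, rfl⟩
      have hEd : E.natDegree ≤ d - 1 := by
        have h1 : (Polynomial.X ^ d - H).degree < (Polynomial.X ^ d : Polynomial A).degree := by
          refine Polynomial.degree_sub_lt_left ?_ (pow_ne_zero _ Polynomial.X_ne_zero) ?_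
          · rw [Polynomial.degree_X_pow, Polynomial.degree_eq_natDegree hHm.ne_zero, hHd]
          · rw [hHm.leadingCoeff, (Polynomial.monic_X_pow d).leadingCoeff]
        rw [Polynomial.degree_X_pow, ← hE] at h1
        by_cases hE0 : E = 0
        · rw [hE0]; simp
        · rw [Polynomial.degree_eq_natDegree hE0] at h1
          have h2 : E.natDegree < d := by exact_mod_cast h1
          omega
      have hjd : d ≤ (j : ℕ) := by omega
      have e1 : (X 1 ^ (j : ℕ) : MvPolynomial (Fin 2) A) =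
          X 1 ^ ((j : ℕ) - d) * PC.f0 γ T + (C T * X 0 ^ (d - 1) * X 1 ^ ((j : ℕ) - d)) * X 0 +
            X 0 ^ 0 * Polynomial.aeval (X 1) (Polynomial.X ^ ((j : ℕ) - d) * E) := by
        have h3 : (X 1 ^ (j : ℕ) : MvPolynomial (Fin 2) A) = X 1 ^ ((j : ℕ) - d) * X 1 ^ d := by
          rw [← pow_add, Nat.sub_add_cancel hjd]
        have h4 : (X 0 ^ d : MvPolynomial (Fin 2) A) = X 0 ^ (d - 1) * X 0 := by
          rw [← pow_succ, Nat.sub_add_cancel hd]
        rw [h3, PC.f0, ← hHa, hE, map_mul, map_pow, Polynomial.aeval_X, map_sub, map_pow,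
          Polynomial.aeval_X, h4]
        ring
      rw [e1]
      refine Submodule.add_mem _ (Submodule.add_mem _ ?_ ?_) ?_
      · refine PC.mul_mem45 (m := M - d - s.degree) (fun q => ?_) ?_
        · exact plane_mul45 (N := N) (S := S) (s := s) (G := PC.f0 γ T) (m := M - d - s.degree)
            (m' := M - d) (by omega) hS3 q
        · rw [totalDegree_X_pow]
          omega
      · refine hx ?_
        have h5 : (C T * X 0 ^ (d - 1) * X 1 ^ ((j : ℕ) - d) : MvPolynomial (Fin 2) A) =
            C T * (X 0 ^ (d - 1) * X 1 ^ ((j : ℕ) - d)) := by ring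
        rw [h5]
        refine (totalDegree_mul _ _).trans ?_
        rw [totalDegree_C, zero_add]
        refine (PC.X_pow_eq45 _ _).trans ?_
        omega
      · refine hlow ((PC.degree_aeval45 _ _).trans ?_)
        have h6 := Polynomial.natDegree_mul_le (p := (Polynomial.X ^ ((j : ℕ) - d) : Polynomial A))
          (q := E)
        rw [Polynomial.natDegree_X_pow] at h6
        omega
  · have h1 : (X 0 ^ (i : ℕ) * X 1 ^ (j : ℕ) : MvPolynomial (Fin 2) A) =
        (X 0 ^ ((i : ℕ) - 1) * X 1 ^ (j : ℕ)) * X 0 := by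
      have h4 : (X 0 ^ (i : ℕ) : MvPolynomial (Fin 2) A) = X 0 ^ ((i : ℕ) - 1) * X 0 := by
        rw [← pow_succ, Nat.sub_add_cancel hi]
      rw [h4]
      ring
    rw [h1]
    refine hx ((PC.X_pow_eq45 _ _).trans ?_)
    omega

end spanning

section columns

variable {R : Type u} [CommRing R]

/-- the columns: multiples of `G`, `G'`, `f` and of the relations -/
noncomputable def colK45 {nV : ℕ} (M a b d : ℕ) {U : Type} {e : U → ℕ}
    (G G' f : MvPolynomial (Fin nV) R) (rel : U → MvPolynomial (Fin nV) R) :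
    MonV nV (M - a) ⊕ (MonV nV (M - b) ⊕ (MonV nV (M - d) ⊕ (Σ u : U, MonV nV (M - e u)))) →
      MvPolynomial (Fin nV) R :=
  Sum.elim (fun q => monomial q.1 1 * G) (Sum.elim (fun q => monomial q.1 1 * G')
    (Sum.elim (fun q => monomial q.1 1 * f) fun q => monomial q.2.1 1 * rel q.1))

/-- the columns of the norm certificate -/
noncomputable def colM45 {N : ℕ} (M n d c : ℕ) {U : Type} {e : U → ℕ}
    (G f : MvPolynomial (Fin (N + 2)) R) (rel : U → MvPolynomial (Fin (N + 2)) R) :
    MonV (N + 2) (M - n) ⊕ (MonV (N + 2) (M - d) ⊕ ((Σ u : U, MonV (N + 2) (M - e u)) ⊕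
      (Fin d × Fin n × MonV (N + 2) c))) → MvPolynomial (Fin (N + 2)) R :=
  Sum.elim (fun q => monomial q.1 1 * G) (Sum.elim (fun q => monomial q.1 1 * f)
    (Sum.elim (fun q => monomial q.2.1 1 * rel q.1)
      fun q => X 0 ^ (q.1 : ℕ) * X 1 ^ (q.2.1 : ℕ) * monomial q.2.2.1 1))

theorem map_colK45 {R' : Type v} [CommRing R'] (φ : R →+* R') {nV : ℕ} (M a b d : ℕ) {U : Type}
    {e : U → ℕ} (G G' f : MvPolynomial (Fin nV) R) (rel : U → MvPolynomial (Fin nV) R)
    (i : MonV nV (M - a) ⊕ (MonV nV (M - b) ⊕ (MonV nV (M - d) ⊕ (Σ u : U, MonV nV (M - e u))))) :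
    map φ (colK45 M a b d G G' f rel i) =
      colK45 M a b d (map φ G) (map φ G') (map φ f) (fun u => map φ (rel u)) i := by
  rcases i with q | q | q | q
  · simp only [colK45, Sum.elim_inl, map_mul, map_monomial, map_one]
  · simp only [colK45, Sum.elim_inl, Sum.elim_inr, map_mul, map_monomial, map_one]
  · simp only [colK45, Sum.elim_inl, Sum.elim_inr, map_mul, map_monomial, map_one]
  · simp only [colK45, Sum.elim_inr, map_mul, map_monomial, map_one]

theorem map_colM45 {R' : Type v} [CommRing R'] (φ : R →+* R') {N : ℕ} (M n d c : ℕ) {U : Type}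
    {e : U → ℕ} (G f : MvPolynomial (Fin (N + 2)) R) (rel : U → MvPolynomial (Fin (N + 2)) R)
    (i : MonV (N + 2) (M - n) ⊕ (MonV (N + 2) (M - d) ⊕ ((Σ u : U, MonV (N + 2) (M - e u)) ⊕
      (Fin d × Fin n × MonV (N + 2) c)))) :
    map φ (colM45 M n d c G f rel i) =
      colM45 M n d c (map φ G) (map φ f) (fun u => map φ (rel u)) i := by
  rcases i with q | q | q | q
  · simp only [colM45, Sum.elim_inl, map_mul, map_monomial, map_one]
  · simp only [colM45, Sum.elim_inl, Sum.elim_inr, map_mul, map_monomial, map_one]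
  · simp only [colM45, Sum.elim_inl, Sum.elim_inr, map_mul, map_monomial, map_one]
  · simp only [colM45, Sum.elim_inr, map_mul, map_pow, map_X, map_monomial, map_one]

theorem deg_mono_mulV45 {nV M n : ℕ} (hn : n ≤ M) (q : MonV nV (M - n))
    {G : MvPolynomial (Fin nV) R} (hG : G.totalDegree ≤ n) :
    (monomial q.1 1 * G).totalDegree ≤ M := by
  have h1 := totalDegree_mul (monomial q.1 (1 : R)) G
  have h2 : (monomial q.1 (1 : R)).totalDegree ≤ M - n := by
    refine (totalDegree_monomial_le _ _).trans ?_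
    have h3 := q.2
    rwa [Finsupp.degree_apply] at h3
  omega

theorem deg_colK45 {nV : ℕ} {M a b d : ℕ} {U : Type} {e : U → ℕ} (ha : a ≤ M) (hb : b ≤ M)
    (hd : d ≤ M) (he : ∀ u, e u ≤ M)
    {G G' f : MvPolynomial (Fin nV) R} {rel : U → MvPolynomial (Fin nV) R}
    (hG : G.totalDegree ≤ a) (hG' : G'.totalDegree ≤ b) (hf : f.totalDegree ≤ d)
    (hrel : ∀ u, (rel u).totalDegree ≤ e u)
    (i : MonV nV (M - a) ⊕ (MonV nV (M - b) ⊕ (MonV nV (M - d) ⊕ (Σ u : U, MonV nV (M - e u))))) :
    (colK45 M a b d G G' f rel i).totalDegree ≤ M := by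
  rcases i with q | q | q | q
  · exact deg_mono_mulV45 ha q hG
  · exact deg_mono_mulV45 hb q hG'
  · exact deg_mono_mulV45 hd q hf
  · exact deg_mono_mulV45 (he q.1) q.2 (hrel q.1)

theorem deg_colM45 {N : ℕ} {M n d c : ℕ} {U : Type} {e : U → ℕ} (hM : n + d + c ≤ M)
    (he : ∀ u, e u ≤ M)
    {G f : MvPolynomial (Fin (N + 2)) R} {rel : U → MvPolynomial (Fin (N + 2)) R}
    (hG : G.totalDegree ≤ n) (hf : f.totalDegree ≤ d)
    (hrel : ∀ u, (rel u).totalDegree ≤ e u)
    (i : MonV (N + 2) (M - n) ⊕ (MonV (N + 2) (M - d) ⊕ ((Σ u : U, MonV (N + 2) (M - e u)) ⊕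
      (Fin d × Fin n × MonV (N + 2) c)))) :
    (colM45 M n d c G f rel i).totalDegree ≤ M := by
  rcases i with q | q | q | ⟨l, b, s⟩
  · exact deg_mono_mulV45 (by omega) q hG
  · exact deg_mono_mulV45 (by omega) q hf
  · exact deg_mono_mulV45 (he q.1) q.2 (hrel q.1)
  · show (X 0 ^ (l : ℕ) * X 1 ^ (b : ℕ) * monomial s.1 1 :
      MvPolynomial (Fin (N + 2)) R).totalDegree ≤ M
    have h1 := totalDegree_mul (X 0 ^ (l : ℕ) * X 1 ^ (b : ℕ) : MvPolynomial (Fin (N + 2)) R)
      (monomial s.1 1)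
    have h2 := totalDegree_mul (X 0 ^ (l : ℕ) : MvPolynomial (Fin (N + 2)) R) (X 1 ^ (b : ℕ))
    have h3 : (X 0 ^ (l : ℕ) : MvPolynomial (Fin (N + 2)) R).totalDegree ≤ l := by
      rw [X_pow_eq_monomial]
      refine (totalDegree_monomial_le _ _).trans ?_
      simp
    have h4 : (X 1 ^ (b : ℕ) : MvPolynomial (Fin (N + 2)) R).totalDegree ≤ b := by
      rw [X_pow_eq_monomial]
      refine (totalDegree_monomial_le _ _).trans ?_
      simp
    have h5 : (monomial s.1 (1 : R)).totalDegree ≤ c := by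
      refine (totalDegree_monomial_le _ _).trans ?_
      have h3 := s.2
      rwa [Finsupp.degree_apply] at h3
    have h6 := l.2
    have h7 := b.2
    omega

theorem colK_span45 {A : Type u} [Field A] {nV : ℕ} (M a b d : ℕ) {U : Type} {e : U → ℕ}
    (G G' f : MvPolynomial (Fin nV) A) (rel : U → MvPolynomial (Fin nV) A) :
    (∀ q : MonV nV (M - a), monomial q.1 1 * G ∈
      Submodule.span A (Set.range (colK45 M a b d G G' f rel (e := e)))) ∧
    (∀ q : MonV nV (M - b), monomial q.1 1 * G' ∈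
      Submodule.span A (Set.range (colK45 M a b d G G' f rel (e := e)))) ∧
    (∀ q : MonV nV (M - d), monomial q.1 1 * f ∈
      Submodule.span A (Set.range (colK45 M a b d G G' f rel (e := e)))) ∧
    (∀ (u : U) (q : MonV nV (M - e u)), monomial q.1 1 * rel u ∈
      Submodule.span A (Set.range (colK45 M a b d G G' f rel (e := e)))) :=
  ⟨fun q => Submodule.subset_span ⟨Sum.inl q, rfl⟩,
    fun q => Submodule.subset_span ⟨Sum.inr (Sum.inl q), rfl⟩,
    fun q => Submodule.subset_span ⟨Sum.inr (Sum.inr (Sum.inl q)), rfl⟩,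
    fun u q => Submodule.subset_span ⟨Sum.inr (Sum.inr (Sum.inr ⟨u, q⟩)), rfl⟩⟩

theorem colM_span45 {A : Type u} [Field A] {N : ℕ} (M n d c : ℕ) {U : Type} {e : U → ℕ}
    (G f : MvPolynomial (Fin (N + 2)) A) (rel : U → MvPolynomial (Fin (N + 2)) A) :
    (∀ q : MonV (N + 2) (M - n), monomial q.1 1 * G ∈
      Submodule.span A (Set.range (colM45 M n d c G f rel (e := e)))) ∧
    (∀ q : MonV (N + 2) (M - d), monomial q.1 1 * f ∈
      Submodule.span A (Set.range (colM45 M n d c G f rel (e := e)))) ∧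
    (∀ (u : U) (q : MonV (N + 2) (M - e u)), monomial q.1 1 * rel u ∈
      Submodule.span A (Set.range (colM45 M n d c G f rel (e := e)))) ∧
    (∀ (l : Fin d) (b : Fin n) (s : MonV (N + 2) c), X 0 ^ (l : ℕ) * X 1 ^ (b : ℕ) *
      monomial s.1 1 ∈ Submodule.span A (Set.range (colM45 M n d c G f rel (e := e)))) :=
  ⟨fun q => Submodule.subset_span ⟨Sum.inl q, rfl⟩,
    fun q => Submodule.subset_span ⟨Sum.inr (Sum.inl q), rfl⟩,
    fun u q => Submodule.subset_span ⟨Sum.inr (Sum.inr (Sum.inl ⟨u, q⟩)), rfl⟩,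
    fun l b s => Submodule.subset_span ⟨Sum.inr (Sum.inr (Sum.inr (l, b, s))), rfl⟩⟩

end columns

section extract

variable {K : Type u} [Field K]

theorem sum_mono45 {nV m : ℕ} (c : MonV nV m → K) (P : MvPolynomial (Fin nV) K) :
    ∑ a, C (c a) * (monomial a.1 1 * P) = pol c * P := by
  unfold pol
  rw [Finset.sum_mul]
  refine Finset.sum_congr rfl fun a _ => ?_
  rw [← mul_assoc, C_mul_monomial, mul_one]

/-- the certificates from the spanning property -/
theorem extract45 {nV M a b d : ℕ} {U : Type} [Fintype U] {e : U → ℕ}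
    (G G' : MvPolynomial (Fin nV) K) (f : MonV nV d → K) (rel : ∀ u, MonV nV (e u) → K)
    {P : MvPolynomial (Fin nV) K}
    (h : ∃ c : MonV nV (M - a) ⊕ (MonV nV (M - b) ⊕ (MonV nV (M - d) ⊕
      (Σ u : U, MonV nV (M - e u)))) → K,
      P = ∑ i, C (c i) * colK45 M a b d G G' (pol f) (fun u => pol (rel u)) i) :
    ∃ (A : MonV nV (M - a) → K) (B : MonV nV (M - b) → K) (H : MonV nV M → K)
      (H' : U → MonV nV M → K), pol A * G + pol B * G' + comb f rel H H' = P := by
  obtain ⟨c, hc⟩ := h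
  obtain ⟨H, hH⟩ := exists_pad (Nat.sub_le M d) (fun q => c (Sum.inr (Sum.inr (Sum.inl q))))
  choose H' hH' using fun u => exists_pad (Nat.sub_le M (e u))
    (fun q => c (Sum.inr (Sum.inr (Sum.inr ⟨u, q⟩))))
  refine ⟨fun q => c (Sum.inl q), fun q => c (Sum.inr (Sum.inl q)), H, H', ?_⟩
  rw [hc, Fintype.sum_sum_type, Fintype.sum_sum_type, Fintype.sum_sum_type, Fintype.sum_sigma]
  simp only [colK45, Sum.elim_inl, Sum.elim_inr]
  rw [sum_mono45, sum_mono45, sum_mono45, comb, hH, ← add_assoc, ← add_assoc, ← add_assoc]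
  refine congrArg₂ (· + ·) rfl (Finset.sum_congr rfl fun u _ => ?_)
  rw [hH' u]
  exact (sum_mono45 (fun q => c (Sum.inr (Sum.inr (Sum.inr ⟨u, q⟩)))) (pol (rel u))).symm

/-- the norm certificate from the spanning property -/
theorem norm_ofV45 {N M n d c : ℕ} {U : Type} [Fintype U] {e : U → ℕ}
    (hM : d * (n * Fintype.card (MonV (N + 2) c)) ≤ M)
    {G : MonV (N + 2) n → K} {f : MonV (N + 2) d → K} {rel : ∀ u, MonV (N + 2) (e u) → K}
    (h : ∀ q : MonV (N + 2) M, ∃ x : MonV (N + 2) (M - n) ⊕ (MonV (N + 2) (M - d) ⊕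
      ((Σ u : U, MonV (N + 2) (M - e u)) ⊕ (Fin d × Fin n × MonV (N + 2) c))) → K,
      monomial q.1 1 = ∑ i, C (x i) * colM45 M n d c (pol G) (pol f) (fun u => pol (rel u)) i) :
    ∃ (D D' : MonV (N + 2) M → K) (D'' : U → MonV (N + 2) M → K) (c : Fin (M + 1) → K), c ≠ 0 ∧
      pol D * pol G + comb f rel D' D'' = polX c := by
  classical
  let Q : Fin (M + 1) → MonV (N + 2) M := fun k => ⟨Finsupp.single 0 (k : ℕ), by
    rw [Finsupp.degree_single]
    exact Nat.lt_succ_iff.1 k.2⟩
  choose x hx using fun k => h (Q k)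
  have hmono : ∀ k, (monomial (Q k).1 1 : MvPolynomial (Fin (N + 2)) K) = X 0 ^ (k : ℕ) :=
    fun k => by rw [X_pow_eq_monomial]
  let Λ : (Fin (M + 1) → K) →ₗ[K] (Fin d × Fin n × MonV (N + 2) c → K) :=
    { toFun := fun a lb => ∑ k, a k * x k (Sum.inr (Sum.inr (Sum.inr lb)))
      map_add' := fun a b => by
        funext lb
        simp only [Pi.add_apply, add_mul, Finset.sum_add_distrib]
      map_smul' := fun r a => by
        funext lb
        simp only [Pi.smul_apply, smul_eq_mul, RingHom.id_apply, Finset.mul_sum, mul_assoc] }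
  have hker : LinearMap.ker Λ ≠ ⊥ := by
    apply LinearMap.ker_ne_bot_of_finrank_lt
    rw [Module.finrank_fintype_fun_eq_card, Module.finrank_fintype_fun_eq_card, Fintype.card_prod,
      Fintype.card_prod, Fintype.card_fin, Fintype.card_fin, Fintype.card_fin]
    omega
  obtain ⟨a, ha, ha0⟩ := (Submodule.ne_bot_iff _).1 hker
  have ha' : ∀ lb, ∑ k, a k * x k (Sum.inr (Sum.inr (Sum.inr lb))) = 0 := fun lb =>
    congrFun (LinearMap.mem_ker.1 ha) lb
  have h1 : ∀ k : Fin (M + 1), (X 0 ^ (k : ℕ) : MvPolynomial (Fin (N + 2)) K) =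
      pol (fun q => x k (Sum.inl q)) * pol G + (pol (fun q => x k (Sum.inr (Sum.inl q))) * pol f +
        (∑ u, pol (fun q => x k (Sum.inr (Sum.inr (Sum.inl ⟨u, q⟩)))) * pol (rel u) +
        ∑ lb : Fin d × Fin n × MonV (N + 2) c, C (x k (Sum.inr (Sum.inr (Sum.inr lb)))) *
          (X 0 ^ (lb.1 : ℕ) * X 1 ^ (lb.2.1 : ℕ) * monomial lb.2.2.1 1))) := by
    intro k
    rw [← hmono, hx k, Fintype.sum_sum_type, Fintype.sum_sum_type, Fintype.sum_sum_type,
      Fintype.sum_sigma]
    simp only [colM45, Sum.elim_inl, Sum.elim_inr]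
    rw [sum_mono45, sum_mono45]
    refine congrArg₂ (· + ·) rfl (congrArg₂ (· + ·) rfl (congrArg₂ (· + ·) ?_ rfl))
    refine Finset.sum_congr rfl fun u _ => ?_
    exact sum_mono45 (fun q => x k (Sum.inr (Sum.inr (Sum.inl ⟨u, q⟩)))) (pol (rel u))
  have hdeg : ∀ {m : ℕ} (g : Fin (M + 1) → MonV (N + 2) (M - m) → K),
      (∑ k, C (a k) * pol (g k)).totalDegree ≤ M := by
    intro m g
    refine (totalDegree_finsetSum _ _).trans (Finset.sup_le fun k _ => ?_)
    refine (totalDegree_mul _ _).trans ?_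
    rw [totalDegree_C, zero_add]
    exact (totalDegree_pol_le _).trans (Nat.sub_le _ _)
  obtain ⟨D, hD⟩ := exists_pol (hdeg (m := n) fun k q => x k (Sum.inl q))
  obtain ⟨D', hD'⟩ := exists_pol (hdeg (m := d) fun k q => x k (Sum.inr (Sum.inl q)))
  choose D'' hD'' using fun u => exists_pol (hdeg (m := e u)
    fun k q => x k (Sum.inr (Sum.inr (Sum.inl ⟨u, q⟩))))
  refine ⟨D, D', D'', a, ha0, ?_⟩
  have h2 : polX a = ∑ k, C (a k) * (X 0 ^ (k : ℕ) : MvPolynomial (Fin (N + 2)) K) := rfl
  have h3 : ∑ k, C (a k) * ∑ lb : Fin d × Fin n × MonV (N + 2) c,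
      C (x k (Sum.inr (Sum.inr (Sum.inr lb)))) *
      (X 0 ^ (lb.1 : ℕ) * X 1 ^ (lb.2.1 : ℕ) * monomial lb.2.2.1 1 :
        MvPolynomial (Fin (N + 2)) K) = 0 := by
    simp only [Finset.mul_sum]
    rw [Finset.sum_comm]
    refine Finset.sum_eq_zero fun lb _ => ?_
    have h4 : ∀ k : Fin (M + 1), C (a k) * (C (x k (Sum.inr (Sum.inr (Sum.inr lb)))) *
        (X 0 ^ (lb.1 : ℕ) * X 1 ^ (lb.2.1 : ℕ) * monomial lb.2.2.1 1 :
          MvPolynomial (Fin (N + 2)) K)) = C (a k * x k (Sum.inr (Sum.inr (Sum.inr lb)))) *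
        (X 0 ^ (lb.1 : ℕ) * X 1 ^ (lb.2.1 : ℕ) * monomial lb.2.2.1 1) := by
      intro k
      rw [C_mul]
      ring
    simp only [h4]
    rw [← Finset.sum_mul, ← map_sum, ha' lb, C_0, zero_mul]
  have h5 : ∑ k, C (a k) * (∑ u, pol (fun q => x k (Sum.inr (Sum.inr (Sum.inl ⟨u, q⟩)))) *
      pol (rel u)) = ∑ u, pol (D'' u) * pol (rel u) := by
    simp only [Finset.mul_sum]
    rw [Finset.sum_comm]
    refine Finset.sum_congr rfl fun u _ => ?_
    rw [hD'', Finset.sum_mul]
    exact Finset.sum_congr rfl fun _ _ => (mul_assoc _ _ _).symm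
  rw [h2, hD, comb, hD', ← h5]
  conv_rhs => enter [2, k]; rw [h1 k, mul_add, mul_add, mul_add]
  rw [Finset.sum_add_distrib, Finset.sum_add_distrib, Finset.sum_add_distrib, h3, add_zero,
    Finset.sum_mul, Finset.sum_mul]
  exact congrArg₂ (· + ·) (Finset.sum_congr rfl fun _ _ => mul_assoc _ _ _)
    (congrArg₂ (· + ·) (Finset.sum_congr rfl fun _ _ => mul_assoc _ _ _) rfl)

end extract

/-- **CERT.**  The certificates at the special curve propagate.  `K ⊆ L ⊇ A⟦ε⟧`. -/
theorem exists_cert {A : Type u} [Field A] [CharZero A] {N d p m c : ℕ} {U : Type} [Fintype U]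
    {e : U → ℕ} (hp : p.Prime) (hd : 0 < d) {T : A} (hT : T ≠ 0)
    {γ : Fin d → A} (hγ : Function.Injective γ) (hγ1 : ∀ i j, γ i ≠ γ j + 1)
    {f : MonV (N + 2) d → PowerSeries A} {rel : ∀ u, MonV (N + 2) (e u) → PowerSeries A}
    (hf : pol (fun q => PowerSeries.constantCoeff (f q)) = inc N (PC.f0 γ T))
    (hrel : Noe (fun u q => PowerSeries.constantCoeff (rel u q)) c)
    {G : Fin d → MonV (N + 2) (1 + p * m) → PowerSeries A}
    (hG : ∀ i, pol (fun q => PowerSeries.constantCoeff (G i q)) = inc N (PC.G0 p m (γ i)))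
    {L K : Type u} [Field L] [Field K] (ψ : PowerSeries A →+* L) (hψ : Function.Injective ψ)
    (ι : K →+* L) {fK : MonV (N + 2) d → K} {relK : ∀ u, MonV (N + 2) (e u) → K}
    {GK : Fin d → MonV (N + 2) (1 + p * m) → K}
    (hfK : ∀ a, ι (fK a) = ψ (f a)) (hrelK : ∀ u a, ι (relK u a) = ψ (rel u a))
    (hGK : ∀ i a, ι (GK i a) = ψ (G i a)) (M₀ : ℕ) :
    ∃ M : ℕ, M₀ ≤ M ∧ 1 + p * m ≤ M ∧ 1 ≤ M ∧ FinX fK relK M ∧
      (∀ i j, i ≠ j → Cop (GK i) (GK j) fK relK M) ∧
      ∃ (D : Fin d → MonV (N + 2) M → K) (D' : Fin d → MonV (N + 2) M → K)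
        (D'' : Fin d → U → MonV (N + 2) M → K) (c : Fin d → Fin (M + 1) → K), ∀ i, c i ≠ 0 ∧
        pol (D i) * pol (GK i) + comb fK relK (D' i) (D'' i) = polX (c i) := by
  classical
  have hfm : map ψ (pol f) = map ι (pol fK) := by
    rw [map_pol, map_pol]
    refine congrArg pol ?_
    funext a
    exact (hfK a).symm
  have hrelm : ∀ u, map ψ (pol (rel u)) = map ι (pol (relK u)) := by
    intro u
    rw [map_pol, map_pol]
    refine congrArg pol ?_
    funext a
    exact (hrelK u a).symm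
  have hGm : ∀ i, map ψ (pol (G i)) = map ι (pol (GK i)) := by
    intro i
    rw [map_pol, map_pol]
    refine congrArg pol ?_
    funext a
    exact (hGK i a).symm
  have hf0 : map PowerSeries.constantCoeff (pol f) = inc N (PC.f0 γ T) := by
    rw [map_pol]
    exact hf
  have hrel0 : ∀ u, map PowerSeries.constantCoeff (pol (rel u)) =
      pol (fun q => PowerSeries.constantCoeff (rel u q)) := fun u => map_pol _ _
  have hG0 : ∀ i, map PowerSeries.constantCoeff (pol (G i)) = inc N (PC.G0 p m (γ i)) := by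
    intro i
    rw [map_pol]
    exact hG i
  obtain ⟨M, hM⟩ : ∃ M : ℕ, M = M₀ + ∑ u, e u +
    d * ((1 + p * m) * Fintype.card (MonV (N + 2) c)) +
    (2 * (1 + p * m) + d + c + 1) := ⟨_, rfl⟩
  obtain ⟨Z, hZ⟩ : ∃ Z : ℕ, Z = d * ((1 + p * m) * Fintype.card (MonV (N + 2) c)) := ⟨_, rfl⟩
  rw [← hZ] at hM
  have hM1 : 2 * (1 + p * m) + d + c + 1 ≤ M := by rw [hM]; exact Nat.le_add_left _ _
  have hM2 : d * ((1 + p * m) * Fintype.card (MonV (N + 2) c)) ≤ M := by
    rw [← hZ, hM]
    omega
  have hM3 : ∀ u, e u ≤ M := by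
    intro u
    have h1 : e u ≤ ∑ u, e u := Finset.single_le_sum (fun _ _ => Nat.zero_le _) (Finset.mem_univ u)
    omega
  refine ⟨M, by omega, by omega, by omega, fun q => ?_, fun i j hij q => ?_, ?_⟩
  · -- FinX
    have hmain := open_span45 PowerSeries.constantCoeff ψ hψ ι (n := N + 2) (M := M)
      (colR := colK45 M 1 1 d (X 0) 1 (pol f) (fun u => pol (rel u)) (e := e))
      (colK := colK45 M 1 1 d (X 0) 1 (pol fK) (fun u => pol (relK u)) (e := e)) (fun a => ?_)
      (fun a => ?_) (fun q => ?_) q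
    · obtain ⟨A, B, H, H', h⟩ := extract45 (X 0) 1 fK relK hmain
      refine ⟨A, B, H, H', ?_⟩
      rw [← h, mul_one]
    · rw [map_colK45, map_colK45, hfm, map_X, map_X, map_one, map_one]
      simp only [hrelm]
    · refine deg_colK45 (by omega) (by omega) (by omega) hM3 ?_ ?_ (totalDegree_pol_le _)
        (fun u => totalDegree_pol_le _) a
      · rw [totalDegree_X]
      · rw [totalDegree_one]; exact Nat.zero_le _
    · rw [← mem_span_iffV45]
      have e0 : (fun a => map PowerSeries.constantCoeff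
          (colK45 M 1 1 d (X 0) 1 (pol f) (fun u => pol (rel u)) (e := e) a)) =
          colK45 M 1 1 d (X 0) 1 (inc N (PC.f0 γ T))
            (fun u => pol (fun q => PowerSeries.constantCoeff (rel u q))) (e := e) := by
        funext a
        rw [map_colK45, hf0, map_X, map_one]
        simp only [hrel0]
      rw [e0]
      obtain ⟨k1, k2, k3, k4⟩ := colK_span45 M 1 1 d (X 0) 1 (inc N (PC.f0 γ T))
        (fun u => pol (fun q => PowerSeries.constantCoeff (rel u q))) (e := e)
      refine noe_span45 hrel k4 ?_ q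
      intro s hs1 hs2 q
      refine sp_fin45 hd (by omega) γ (T := T) k1 (fun a => ?_) k3 q
      have h1 := k2 a
      rwa [mul_one] at h1
  · -- Cop
    have hmain := open_span45 PowerSeries.constantCoeff ψ hψ ι (n := N + 2) (M := M)
      (colR := colK45 M (1 + p * m) (1 + p * m) d (pol (G i)) (pol (G j)) (pol f)
        (fun u => pol (rel u)) (e := e))
      (colK := colK45 M (1 + p * m) (1 + p * m) d (pol (GK i)) (pol (GK j)) (pol fK)
        (fun u => pol (relK u)) (e := e)) (fun a => ?_)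
      (fun a => ?_) (fun q => ?_) q
    · exact extract45 _ _ fK relK hmain
    · rw [map_colK45, map_colK45, hfm, hGm, hGm]
      simp only [hrelm]
    · exact deg_colK45 (by omega) (by omega) (by omega) hM3 (totalDegree_pol_le _)
        (totalDegree_pol_le _) (totalDegree_pol_le _) (fun u => totalDegree_pol_le _) a
    · rw [← mem_span_iffV45]
      have e0 : (fun a => map PowerSeries.constantCoeff
          (colK45 M (1 + p * m) (1 + p * m) d (pol (G i)) (pol (G j)) (pol f)
            (fun u => pol (rel u)) (e := e) a)) =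
          colK45 M (1 + p * m) (1 + p * m) d (inc N (PC.G0 p m (γ i))) (inc N (PC.G0 p m (γ j)))
            (inc N (PC.f0 γ T))
            (fun u => pol (fun q => PowerSeries.constantCoeff (rel u q))) (e := e) := by
        funext a
        rw [map_colK45, hf0, hG0, hG0]
        simp only [hrel0]
      rw [e0]
      obtain ⟨k1, k2, k3, k4⟩ := colK_span45 M (1 + p * m) (1 + p * m) d
        (inc N (PC.G0 p m (γ i))) (inc N (PC.G0 p m (γ j))) (inc N (PC.f0 γ T))
        (fun u => pol (fun q => PowerSeries.constantCoeff (rel u q))) (e := e)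
      refine noe_span45 hrel k4 ?_ q
      intro s hs1 hs2 q
      exact PC.sp_cop45 (e := p * m) hd (by omega) hT γ (fun h => hij (hγ h)) (hγ1 i j) (hγ1 j i)
        (fun a => plane_mul45 (m' := M - (1 + p * m)) (by omega) k1 a)
        (fun a => plane_mul45 (m' := M - (1 + p * m)) (by omega) k2 a)
        (fun a => plane_mul45 (m' := M - d) (by omega) k3 a) q
  · -- norm certificates
    have h1 : ∀ i, ∃ (D D' : MonV (N + 2) M → K) (D'' : U → MonV (N + 2) M → K)
        (c : Fin (M + 1) → K), c ≠ 0 ∧ pol D * pol (GK i) + comb fK relK D' D'' = polX c := by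
      intro i
      apply norm_ofV45 hM2
      intro q
      refine open_span45 PowerSeries.constantCoeff ψ hψ ι (n := N + 2) (M := M)
        (colR := colM45 M (1 + p * m) d c (pol (G i)) (pol f) (fun u => pol (rel u)) (e := e))
        (fun a => ?_) (fun a => ?_) (fun q => ?_) q
      · rw [map_colM45, map_colM45, hGm, hfm]
        simp only [hrelm]
      · exact deg_colM45 (by omega) hM3 (totalDegree_pol_le _) (totalDegree_pol_le _)
          (fun u => totalDegree_pol_le _) a
      · rw [← mem_span_iffV45]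
        have e0 : (fun a => map PowerSeries.constantCoeff
            (colM45 M (1 + p * m) d c (pol (G i)) (pol f) (fun u => pol (rel u)) (e := e) a)) =
            colM45 M (1 + p * m) d c (inc N (PC.G0 p m (γ i))) (inc N (PC.f0 γ T))
              (fun u => pol (fun q => PowerSeries.constantCoeff (rel u q))) (e := e) := by
          funext a
          rw [map_colM45, hf0, hG0]
          simp only [hrel0]
        rw [e0]
        obtain ⟨k1, k2, k3, k4⟩ := colM_span45 M (1 + p * m) d c
          (inc N (PC.G0 p m (γ i))) (inc N (PC.f0 γ T))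
          (fun u => pol (fun q => PowerSeries.constantCoeff (rel u q))) (e := e)
        refine noe_span45 hrel k3 ?_ q
        intro s hs1 hs2 q
        refine PC.sp_norm45 (e := p * m) hd (by omega) hT γ (a := γ i)
          (fun a => plane_mul45 (m' := M - (1 + p * m)) (by omega) k1 a)
          (fun a => plane_mul45 (m' := M - d) (by omega) k2 a)
          (fun l b => ?_) q
        rw [mem_planeS45, map_mul, map_pow, map_pow, inc_X0, inc_X1]
        exact k4 l b ⟨s, hs1⟩
    choose D D' D'' c h2 h3 using h1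
    exact ⟨D, D', D'', c, fun i => ⟨h2 i, h3 i⟩⟩

end Pool.Agent.BT
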