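import Pool.Agent.Helper10.BT.Pol
import Pool.Agent.Helper13.BT.DDefs
import Pool.Agent.Helper45.PLN.Disc

/-!
# Project BERTINI: the equations of the coordinates over the line and the discriminant (block DISC)
-/

universe u v

namespace Pool.Agent.BT

section descent

variable {S : Type u} [Field S] {k0 : Subfield S}

/-- coefficientwise application of a linear map -/
noncomputable def cw45 (π : S →ₗ[k0] k0) (n : ℕ) :
    MvPolynomial (Fin n) S →+ MvPolynomial (Fin n) k0 :=
  { toFun := fun P => ∑ s ∈ P.support, MvPolynomial.monomial s (π (P.coeff s))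
    map_zero' := by simp
    map_add' := by
      classical
      intro P Q
      have h : ∀ P : MvPolynomial (Fin n) S, ∀ T : Finset (Fin n →₀ ℕ), P.support ⊆ T →
          ∑ s ∈ P.support, MvPolynomial.monomial s (π (P.coeff s)) =
            ∑ s ∈ T, MvPolynomial.monomial s (π (P.coeff s)) := by
        intro P T hT
        refine Finset.sum_subset hT fun s _ hs => ?_
        rw [MvPolynomial.notMem_support_iff.1 hs, map_zero, MvPolynomial.monomial_zero]
      rw [h _ _ (MvPolynomial.support_add (p := P) (q := Q)), h P _ Finset.subset_union_left,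
        h Q _ Finset.subset_union_right, ← Finset.sum_add_distrib]
      refine Finset.sum_congr rfl fun s _ => ?_
      rw [MvPolynomial.coeff_add, map_add, map_add] }

theorem cw45_monomial (π : S →ₗ[k0] k0) {n : ℕ} (s : Fin n →₀ ℕ) (a : S) :
    cw45 π n (MvPolynomial.monomial s a) = MvPolynomial.monomial s (π a) := by
  classical
  show ∑ t ∈ (MvPolynomial.monomial s a).support,
    MvPolynomial.monomial t (π ((MvPolynomial.monomial s a).coeff t)) = _
  by_cases ha : a = 0
  · rw [ha]
    simp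
  · rw [MvPolynomial.support_monomial, if_neg ha, Finset.sum_singleton,
      MvPolynomial.coeff_monomial, if_pos rfl]

theorem cw45_mul (π : S →ₗ[k0] k0) {n : ℕ} (P : MvPolynomial (Fin n) S)
    (Q : MvPolynomial (Fin n) k0) :
    cw45 π n (P * MvPolynomial.map k0.subtype Q) = cw45 π n P * Q := by
  induction P using MvPolynomial.induction_on' with
  | monomial s a =>
    induction Q using MvPolynomial.induction_on' with
    | monomial t b =>
      rw [MvPolynomial.map_monomial, MvPolynomial.monomial_mul, cw45_monomial, cw45_monomial,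
        MvPolynomial.monomial_mul]
      have h1 : a * k0.subtype b = b • a := by
        rw [mul_comm]
        rfl
      rw [h1, map_smul, smul_eq_mul, mul_comm]
    | add Q Q' hQ hQ' => rw [map_add, mul_add, map_add, hQ, hQ', mul_add]
  | add P P' hP hP' => rw [add_mul, map_add, hP, hP', map_add, add_mul]

theorem cw45_pol (π : S →ₗ[k0] k0) {n D : ℕ} (g : MonV n D → S) :
    cw45 π n (pol g) = pol fun q => π (g q) := by
  rw [pol, map_sum]
  exact Finset.sum_congr rfl fun q _ => cw45_monomial _ _ _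

theorem finX_desc45 {N d M : ℕ} {U : Type} [Fintype U] {e : U → ℕ}
    {f : MonV (N + 2) d → k0} {rel : ∀ u, MonV (N + 2) (e u) → k0}
    (h : FinX (fun a => (f a : S)) (fun u a => (rel u a : S)) M) : FinX f rel M := by
  obtain ⟨π, hπ⟩ := LinearMap.exists_leftInverse_of_injective (Algebra.linearMap k0 S)
    (LinearMap.ker_eq_bot.2 (algebraMap k0 S).injective)
  have hπ1 : π 1 = 1 := by
    have h1 := LinearMap.congr_fun hπ 1
    rw [LinearMap.comp_apply, Algebra.linearMap_apply, map_one] at h1
    exact h1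
  intro q
  obtain ⟨A, B, H, H', hq⟩ := h q
  refine ⟨fun a => π (A a), fun a => π (B a), fun a => π (H a), fun u a => π (H' u a), ?_⟩
  have h1 := congrArg (cw45 π (N + 2)) hq
  have hX : (MvPolynomial.X 0 : MvPolynomial (Fin (N + 2)) S) =
      MvPolynomial.map k0.subtype (MvPolynomial.X 0) := (MvPolynomial.map_X _ _).symm
  have hf : pol (fun a => (f a : S)) = MvPolynomial.map k0.subtype (pol f) := by
    rw [map_pol]
    rfl
  have hrel : ∀ u, pol (fun a => (rel u a : S)) = MvPolynomial.map k0.subtype (pol (rel u)) := by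
    intro u
    rw [map_pol]
    rfl
  rw [comb, map_add, map_add, map_add, map_sum, hX, hf, cw45_mul, cw45_mul, cw45_pol, cw45_pol,
    cw45_pol, cw45_monomial, hπ1] at h1
  rw [comb, ← h1]
  refine congrArg₂ (· + ·) rfl (congrArg₂ (· + ·) rfl (Finset.sum_congr rfl fun u _ => ?_))
  rw [hrel, cw45_mul, cw45_pol]

end descent

section integral

variable {κ : Type u} [Field κ]

theorem exists_split45 {n M : ℕ} : ∀ (k : ℕ) (s : Fin n →₀ ℕ), s.degree = M + k →
    ∃ q t : Fin n →₀ ℕ, s = t + q ∧ q.degree = M ∧ t.degree = k := by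
  classical
  intro k
  induction k with
  | zero =>
    intro s hs
    exact ⟨s, 0, by rw [zero_add], by rw [hs, add_zero], by simp⟩
  | succ k ih =>
    intro s hs
    have h0 : s ≠ 0 := by
      rintro rfl
      rw [map_zero] at hs
      omega
    obtain ⟨i, hi⟩ := Finsupp.ne_iff.1 h0
    rw [Finsupp.coe_zero, Pi.zero_apply] at hi
    have h1 : Finsupp.single i 1 ≤ s := by
      rw [Finsupp.single_le_iff]
      omega
    have h2 : s = (s - Finsupp.single i 1) + Finsupp.single i 1 := (tsub_add_cancel_of_le h1).symm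
    have h3 : (s - Finsupp.single i 1).degree = M + k := by
      have h4 := congrArg Finsupp.degree h2
      rw [map_add, Finsupp.degree_single] at h4
      omega
    obtain ⟨q, t, hst, hq, ht⟩ := ih _ h3
    refine ⟨q, t + Finsupp.single i 1, ?_, hq, ?_⟩
    · rw [h2, hst]
      abel
    · rw [map_add, ht, Finsupp.degree_single]

/-- every coordinate is integral over the line -/
theorem exists_int45 {N d M : ℕ} {U : Type} [Fintype U] {e : U → ℕ}
    {f : MonV (N + 2) d → κ} {rel : ∀ u, MonV (N + 2) (e u) → κ} (hM : 1 ≤ M)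
    (hfin : FinX f rel M) {I : Ideal (MvPolynomial (Fin (N + 2)) κ)} (hf : pol f ∈ I)
    (hrel : ∀ u, pol (rel u) ∈ I) (v : Fin (N + 2)) :
    ∃ p : Polynomial (Polynomial κ), p.Monic ∧ subV N v p ∈ I := by
  classical
  obtain ⟨φ, hφ⟩ : ∃ φ : Polynomial κ →+* (MvPolynomial (Fin (N + 2)) κ ⧸ I),
      φ = (Ideal.Quotient.mk I).comp
        (Polynomial.aeval (MvPolynomial.X 0) : Polynomial κ →ₐ[κ] MvPolynomial (Fin (N + 2)) κ).toRingHom :=
    ⟨_, rfl⟩
  let _ : Algebra (Polynomial κ) (MvPolynomial (Fin (N + 2)) κ ⧸ I) := φ.toAlgebra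
  have halg : algebraMap (Polynomial κ) (MvPolynomial (Fin (N + 2)) κ ⧸ I) = φ := rfl
  have hφX : φ Polynomial.X = Ideal.Quotient.mk I (MvPolynomial.X 0) := by
    rw [hφ]
    simp
  have hφC : ∀ a, φ (Polynomial.C a) = Ideal.Quotient.mk I (MvPolynomial.C a) := by
    intro a
    rw [hφ]
    simp
  obtain ⟨W, hW⟩ : ∃ W : Submodule (Polynomial κ) (MvPolynomial (Fin (N + 2)) κ ⧸ I),
      W = Submodule.span (Polynomial κ) (Set.range fun s : MonV (N + 2) (M - 1) =>
        Ideal.Quotient.mk I (MvPolynomial.monomial s.1 1)) := ⟨_, rfl⟩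
  have hmulC : ∀ (a : κ) (w : MvPolynomial (Fin (N + 2)) κ), Ideal.Quotient.mk I w ∈ W →
      Ideal.Quotient.mk I (MvPolynomial.C a * w) ∈ W := by
    intro a w hw
    have h1 : Ideal.Quotient.mk I (MvPolynomial.C a * w) =
        (Polynomial.C a) • (Ideal.Quotient.mk I w) := by
      rw [Algebra.smul_def, halg, hφC, map_mul]
    rw [h1]
    exact W.smul_mem _ hw
  have key : ∀ (D : ℕ) (s : Fin (N + 2) →₀ ℕ), s.degree ≤ D →
      Ideal.Quotient.mk I (MvPolynomial.monomial s 1) ∈ W := by
    intro D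
    induction D with
    | zero =>
      intro s hs
      rw [hW]
      exact Submodule.subset_span ⟨⟨s, by omega⟩, rfl⟩
    | succ D ih =>
      intro s hs
      by_cases hsM : s.degree ≤ M - 1
      · rw [hW]
        exact Submodule.subset_span ⟨⟨s, hsM⟩, rfl⟩
      · push Not at hsM
        obtain ⟨q, t, hst, hq, ht⟩ := exists_split45 (M := M) (s.degree - M) s (by omega)
        obtain ⟨A, B, H, H', h⟩ := hfin ⟨q, hq.le⟩
        -- polynomials of degree at most `D`
        have hlow : ∀ P : MvPolynomial (Fin (N + 2)) κ, P.totalDegree ≤ D →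
            Ideal.Quotient.mk I P ∈ W := by
          intro P hP
          obtain ⟨g, rfl⟩ := exists_pol hP
          rw [pol, map_sum]
          refine W.sum_mem fun r _ => ?_
          have h1 : (MvPolynomial.monomial r.1 (g r) : MvPolynomial (Fin (N + 2)) κ) =
              MvPolynomial.C (g r) * MvPolynomial.monomial r.1 1 := by
            rw [MvPolynomial.C_mul_monomial, mul_one]
          rw [h1]
          exact hmulC _ _ (ih r.1 r.2)
        have hdeg : ∀ P : MonV (N + 2) (M - 1) → κ,
            (MvPolynomial.monomial t 1 * pol P).totalDegree ≤ D := by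
          intro P
          refine (MvPolynomial.totalDegree_mul _ _).trans ?_
          have h1 := totalDegree_pol_le P
          have h2 : (MvPolynomial.monomial t (1 : κ)).totalDegree ≤ t.degree := by
            refine (MvPolynomial.totalDegree_monomial_le _ _).trans ?_
            rw [Finsupp.degree_apply]
            exact le_rfl
          omega
        have hcomb : Ideal.Quotient.mk I (comb f rel H H') = 0 := by
          rw [Ideal.Quotient.eq_zero_iff_mem, comb]
          exact I.add_mem (I.mul_mem_left _ hf)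
            (Submodule.sum_mem _ fun u _ => I.mul_mem_left _ (hrel u))
        have h2 : Ideal.Quotient.mk I (MvPolynomial.monomial s 1) =
            (Polynomial.X : Polynomial κ) • Ideal.Quotient.mk I (MvPolynomial.monomial t 1 * pol A) +
              Ideal.Quotient.mk I (MvPolynomial.monomial t 1 * pol B) := by
          have h3 : (MvPolynomial.monomial s 1 : MvPolynomial (Fin (N + 2)) κ) =
              MvPolynomial.monomial t 1 * MvPolynomial.monomial q 1 := by
            rw [MvPolynomial.monomial_mul, mul_one, hst]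
          have h4 : (MvPolynomial.monomial q 1 : MvPolynomial (Fin (N + 2)) κ) =
              pol A * MvPolynomial.X 0 + pol B + comb f rel H H' := h.symm
          rw [h3, h4, map_mul, map_add, hcomb, add_zero, map_add, map_mul, Algebra.smul_def, halg,
            hφX, map_mul, map_mul]
          ring
        rw [h2]
        exact W.add_mem (W.smul_mem _ (hlow _ (hdeg A))) (hlow _ (hdeg B))
  have hfinite : Module.Finite (Polynomial κ) (MvPolynomial (Fin (N + 2)) κ ⧸ I) := by
    refine ⟨⟨(Set.finite_range fun s : MonV (N + 2) (M - 1) =>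
        Ideal.Quotient.mk I (MvPolynomial.monomial s.1 1)).toFinset, ?_⟩⟩
    rw [Set.Finite.coe_toFinset, ← hW, eq_top_iff]
    rintro w -
    obtain ⟨P, rfl⟩ := Ideal.Quotient.mk_surjective w
    rw [← MvPolynomial.support_sum_monomial_coeff P, map_sum]
    refine W.sum_mem fun r _ => ?_
    have h1 : (MvPolynomial.monomial r (P.coeff r) : MvPolynomial (Fin (N + 2)) κ) =
        MvPolynomial.C (P.coeff r) * MvPolynomial.monomial r 1 := by
      rw [MvPolynomial.C_mul_monomial, mul_one]
    rw [h1]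
    exact hmulC _ _ (key _ r le_rfl)
  obtain ⟨p, hp, hp0⟩ := IsIntegral.of_finite (Polynomial κ)
    (Ideal.Quotient.mk I (MvPolynomial.X v))
  refine ⟨p, hp, ?_⟩
  rw [← Ideal.Quotient.eq_zero_iff_mem, ← hp0, halg, hφ]
  show Ideal.Quotient.mk I (Polynomial.eval₂ _ _ p) = _
  rw [Polynomial.hom_eval₂]

end integral

section squarefree

variable {κ : Type u} [Field κ] [CharZero κ]

/-- the squarefree part of a monic polynomial over `κ[x]` and its discriminant -/
theorem exists_sqf45 {p : Polynomial (Polynomial κ)} (hp : p.Monic) (hp1 : 1 ≤ p.natDegree) :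
    ∃ (s A B : Polynomial (Polynomial κ)) (D : Polynomial κ) (n : ℕ), s.Monic ∧ p ∣ s ^ n ∧
      D ≠ 0 ∧ A * s + B * Polynomial.derivative s = Polynomial.C D := by
  classical
  obtain ⟨L, hL⟩ : ∃ L : Type u, L = FractionRing (Polynomial κ) := ⟨_, rfl⟩
  have hchar : CharZero (FractionRing (Polynomial κ)) :=
    charZero_of_injective_algebraMap (R := Polynomial κ)
      (IsFractionRing.injective (Polynomial κ) (FractionRing (Polynomial κ)))
  have hinj : Function.Injective (algebraMap (Polynomial κ) (FractionRing (Polynomial κ))) :=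
    IsFractionRing.injective _ _
  obtain ⟨P, hP⟩ : ∃ P, P = p.map (algebraMap (Polynomial κ) (FractionRing (Polynomial κ))) :=
    ⟨_, rfl⟩
  have hPm : P.Monic := by rw [hP]; exact hp.map _
  obtain ⟨r, hr⟩ : ∃ r, r = UniqueFactorizationMonoid.radical P := ⟨_, rfl⟩
  have hrP : r ∣ P := by rw [hr]; exact UniqueFactorizationMonoid.radical_dvd_self
  obtain ⟨n, hn⟩ := UniqueFactorizationMonoid.exists_dvd_radical_self_pow hPm.ne_zero
  rw [← hr] at hn
  have hrs : r.Separable := by
    rw [PerfectField.separable_iff_squarefree, hr]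
    exact UniqueFactorizationMonoid.squarefree_radical
  have hr0 : r ≠ 0 := by rw [hr]; exact UniqueFactorizationMonoid.radical_ne_zero
  rw [hP] at hrP
  obtain ⟨s, hs⟩ := IsIntegrallyClosed.eq_map_mul_C_of_dvd (FractionRing (Polynomial κ)) hp hrP
  have hlc : r.leadingCoeff ≠ 0 := Polynomial.leadingCoeff_ne_zero.2 hr0
  have hsm : s.Monic := by
    have h1 := congrArg Polynomial.leadingCoeff hs
    rw [Polynomial.leadingCoeff_mul, Polynomial.leadingCoeff_C,
      Polynomial.leadingCoeff_map_of_injective hinj] at h1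
    have h2 : algebraMap (Polynomial κ) (FractionRing (Polynomial κ)) s.leadingCoeff = 1 :=
      mul_right_cancel₀ hlc (by rw [h1, one_mul])
    rw [← map_one (algebraMap (Polynomial κ) (FractionRing (Polynomial κ)))] at h2
    exact hinj h2
  have hu : IsUnit (Polynomial.C r.leadingCoeff) := Polynomial.isUnit_C.2 hlc.isUnit
  have hdvd : p ∣ s ^ n := by
    rw [← Polynomial.map_dvd_map (algebraMap (Polynomial κ) (FractionRing (Polynomial κ))) hinj hp,
      Polynomial.map_pow]
    rw [hP, ← hs, mul_pow] at hn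
    exact (hu.pow n).dvd_mul_right.1 hn
  have hsep : (s.map (algebraMap (Polynomial κ) (FractionRing (Polynomial κ)))).Separable := by
    rw [← hs] at hrs
    exact hrs.of_mul_left
  have hs1 : 1 ≤ s.natDegree := by
    by_contra h
    have h0 : s.natDegree = 0 := by omega
    have h1 : s = 1 := hsm.natDegree_eq_zero.1 h0
    rw [h1, one_pow] at hdvd
    have h2 := Polynomial.natDegree_le_of_dvd hdvd one_ne_zero
    rw [Polynomial.natDegree_one] at h2
    omega
  obtain ⟨D, hD⟩ : ∃ D, D = s.resultant (Polynomial.derivative s) s.natDegree (s.natDegree - 1) :=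
    ⟨_, rfl⟩
  have hsd : (s.map (algebraMap (Polynomial κ) (FractionRing (Polynomial κ)))).natDegree =
      s.natDegree := Polynomial.natDegree_map_eq_of_injective hinj s
  have hD0 : D ≠ 0 := by
    intro h0
    have h1 : (algebraMap (Polynomial κ) (FractionRing (Polynomial κ))) D =
        (s.map (algebraMap (Polynomial κ) (FractionRing (Polynomial κ)))).resultant
        (Polynomial.derivative
          (s.map (algebraMap (Polynomial κ) (FractionRing (Polynomial κ))))) := by
      rw [hD, ← Polynomial.resultant_map_map, Polynomial.natDegree_derivative, hsd,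
        Polynomial.derivative_map]
    rw [h0, map_zero] at h1
    exact Polynomial.resultant_ne_zero _ _ hsep h1.symm
  obtain ⟨A, B, -, -, hAB⟩ := Polynomial.exists_mul_add_mul_eq_C_resultant (m := s.natDegree)
    (n := s.natDegree - 1) s (Polynomial.derivative s) le_rfl
    (Polynomial.natDegree_derivative_le s) (Or.inl (by omega))
  rw [← hD] at hAB
  exact ⟨s, A, B, D, n, hsm, hdvd, hD0, by rw [← hAB]; ring⟩

end squarefree

section coefficients

variable {κ : Type u} [Field κ]

theorem polU_eq45 {M : ℕ} {p : Polynomial κ} (hp : p.natDegree ≤ M) :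
    polU (fun i : Fin (M + 1) => p.coeff i) = p := by
  rw [polU, Fin.sum_univ_eq_sum_range (fun i => (Polynomial.C (p.coeff i) * Polynomial.X ^ i))]
  exact (p.as_sum_range_C_mul_X_pow' (Nat.lt_succ_of_le hp)).symm

theorem exists_polYX45 (P : Polynomial (Polynomial κ)) : ∃ b : ℕ, ∀ M, b ≤ M →
    ∃ a : Fin (M + 1) → Fin (M + 1) → κ, polYX a = P := by
  refine ⟨P.natDegree + ∑ j ∈ Finset.range (P.natDegree + 1), (P.coeff j).natDegree,
    fun M hM => ⟨fun j i => (P.coeff j).coeff i, ?_⟩⟩
  have h1 : ∀ j, (P.coeff j).natDegree ≤ M := by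
    intro j
    by_cases hj : j < P.natDegree + 1
    · have h2 : (P.coeff j).natDegree ≤ ∑ j ∈ Finset.range (P.natDegree + 1),
          (P.coeff j).natDegree :=
        Finset.single_le_sum (f := fun j => (P.coeff j).natDegree) (fun _ _ => Nat.zero_le _)
          (Finset.mem_range.2 hj)
      omega
    · rw [Polynomial.coeff_eq_zero_of_natDegree_lt (by omega), Polynomial.natDegree_zero]
      exact Nat.zero_le _
  rw [polYX]
  simp only [polU_eq45 (h1 _)]
  rw [Fin.sum_univ_eq_sum_range (fun j => (Polynomial.C (P.coeff j) * Polynomial.X ^ j))]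
  exact (P.as_sum_range_C_mul_X_pow' (Nat.lt_succ_of_le (by omega))).symm

theorem exists_monYX45 {P : Polynomial (Polynomial κ)} (hP : P.Monic) : ∃ b : ℕ, ∀ M, b ≤ M →
    ∃ a : Fin P.natDegree → Fin (M + 1) → κ, monYX a = P := by
  refine ⟨∑ j ∈ Finset.range (P.natDegree + 1), (P.coeff j).natDegree,
    fun M hM => ⟨fun j i => (P.coeff j).coeff i, ?_⟩⟩
  have h1 : ∀ j : Fin P.natDegree, (P.coeff j).natDegree ≤ M := by
    intro j
    have h2 : (P.coeff j).natDegree ≤ ∑ j ∈ Finset.range (P.natDegree + 1),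
        (P.coeff j).natDegree :=
      Finset.single_le_sum (f := fun j => (P.coeff j).natDegree) (fun _ _ => Nat.zero_le _)
        (Finset.mem_range.2 (by have := j.2; omega))
    omega
  rw [monYX]
  simp only [polU_eq45 (h1 _)]
  rw [Fin.sum_univ_eq_sum_range (fun j => (Polynomial.C (P.coeff j) * Polynomial.X ^ j))]
  exact hP.as_sum.symm

theorem map_polU45 {S : Type v} [Field S] (φ : κ →+* S) {n : ℕ} (c : Fin (n + 1) → κ) :
    (polU c).map φ = polU fun i => φ (c i) := by
  rw [polU, Polynomial.map_sum, polU]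
  refine Finset.sum_congr rfl fun i _ => ?_
  rw [Polynomial.map_mul, Polynomial.map_C, Polynomial.map_pow, Polynomial.map_X]

theorem map_polYX45 {S : Type v} [Field S] (φ : κ →+* S) {m n : ℕ}
    (a : Fin (m + 1) → Fin (n + 1) → κ) :
    (polYX a).map (Polynomial.mapRingHom φ) = polYX fun j i => φ (a j i) := by
  rw [polYX, Polynomial.map_sum, polYX]
  refine Finset.sum_congr rfl fun i _ => ?_
  rw [Polynomial.map_mul, Polynomial.map_C, Polynomial.map_pow, Polynomial.map_X,
    Polynomial.coe_mapRingHom, map_polU45]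

theorem map_monYX45 {S : Type v} [Field S] (φ : κ →+* S) {ρ n : ℕ} (a : Fin ρ → Fin (n + 1) → κ) :
    (monYX a).map (Polynomial.mapRingHom φ) = monYX fun j i => φ (a j i) := by
  rw [monYX, Polynomial.map_add, Polynomial.map_pow, Polynomial.map_X, Polynomial.map_sum, monYX]
  refine congrArg₂ (· + ·) rfl (Finset.sum_congr rfl fun i _ => ?_)
  rw [Polynomial.map_mul, Polynomial.map_C, Polynomial.map_pow, Polynomial.map_X,
    Polynomial.coe_mapRingHom, map_polU45]

theorem map_subV45 {S : Type v} [Field S] (φ : κ →+* S) {N : ℕ} (v : Fin (N + 2))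
    (P : Polynomial (Polynomial κ)) : MvPolynomial.map φ (subV N v P) =
      subV N v (P.map (Polynomial.mapRingHom φ)) := by
  rw [subV, subV, Polynomial.coe_eval₂RingHom, Polynomial.coe_eval₂RingHom, Polynomial.hom_eval₂,
    Polynomial.eval₂_map, MvPolynomial.map_X]
  refine congrArg (fun g => Polynomial.eval₂ g (MvPolynomial.X v) P) ?_
  refine Polynomial.ringHom_ext (fun a => ?_) ?_
  · simp [MvPolynomial.algebraMap_eq]
  · simp

/-- membership in the ideal of the relations -/
theorem mem_comb45 {N d : ℕ} {U : Type} [Fintype U] {e : U → ℕ} {f : MonV (N + 2) d → κ}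
    {rel : ∀ u, MonV (N + 2) (e u) → κ} {P : MvPolynomial (Fin (N + 2)) κ}
    (hP : P ∈ Ideal.span (Set.range fun o : Option U => o.elim (pol f) fun u => pol (rel u))) :
    ∃ b : ℕ, ∀ M, b ≤ M → ∃ (H : MonV (N + 2) M → κ) (H' : U → MonV (N + 2) M → κ),
      P = comb f rel H H' := by
  obtain ⟨c, hc⟩ := Ideal.mem_span_range_iff_exists_fun.1 hP
  refine ⟨∑ o, (c o).totalDegree, fun M hM => ?_⟩
  have h1 : ∀ o, (c o).totalDegree ≤ M := by
    intro o
    have h2 : (c o).totalDegree ≤ ∑ o, (c o).totalDegree :=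
      Finset.single_le_sum (f := fun o => (c o).totalDegree) (fun _ _ => Nat.zero_le _)
        (Finset.mem_univ _)
    omega
  choose H hH using fun o => exists_pol (h1 o)
  refine ⟨H none, fun u => H (some u), ?_⟩
  rw [comb, ← hc, Fintype.sum_option, hH]
  simp only [hH, Option.elim]

end coefficients

/-- the statement over `k0` -/
theorem disc_core45 {κ : Type u} [Field κ] [CharZero κ] {N d : ℕ} {U : Type} [Fintype U]
    {e : U → ℕ} {f : MonV (N + 2) d → κ} {rel : ∀ u, MonV (N + 2) (e u) → κ} {M : ℕ} (hM : 1 ≤ M)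
    (hfin : FinX f rel M) :
    ∃ (e₁ e₂ M₁ M₂ : ℕ) (ρ : Fin (N + 2) → ℕ) (s : ∀ v, Fin (ρ v) → Fin (M₂ + 1) → κ)
      (R V V' : Fin (M₁ + 1) → κ) (A B : Fin (N + 2) → Fin (M₂ + 1) → Fin (M₂ + 1) → κ)
      (H : Fin (N + 2) → MonV (N + 2) M₂ → κ) (H' : Fin (N + 2) → U → MonV (N + 2) M₂ → κ),
      1 ≤ M₁ ∧ R (Fin.last M₁) ≠ 0 ∧
      polU V * polU R + polU V' * Polynomial.derivative (polU R) = 1 ∧
      (∀ v, polYX (A v) * monYX (s v) + polYX (B v) * Polynomial.derivative (monYX (s v)) =
        Polynomial.C (polU R ^ e₁)) ∧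
      ∀ v, subV N v (monYX (s v)) ^ e₂ = comb f rel (H v) (H' v) := by
  classical
  obtain ⟨I, hI⟩ : ∃ I : Ideal (MvPolynomial (Fin (N + 2)) κ),
      I = Ideal.span (Set.range fun o : Option U => o.elim (pol f) fun u => pol (rel u)) := ⟨_, rfl⟩
  have hfI : pol f ∈ I := by rw [hI]; exact Ideal.subset_span ⟨none, rfl⟩
  have hrelI : ∀ u, pol (rel u) ∈ I := fun u => by rw [hI]; exact Ideal.subset_span ⟨some u, rfl⟩
  -- the equations
  have h1 : ∀ v : Fin (N + 2), ∃ (s A B : Polynomial (Polynomial κ)) (D : Polynomial κ) (n : ℕ),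
      s.Monic ∧ D ≠ 0 ∧ A * s + B * Polynomial.derivative s = Polynomial.C D ∧
      subV N v s ^ n ∈ I := by
    intro v
    obtain ⟨p, hp, hpI⟩ := exists_int45 hM hfin hfI hrelI v
    have hp' : (p * Polynomial.X).Monic := hp.mul Polynomial.monic_X
    have hp1 : 1 ≤ (p * Polynomial.X).natDegree := by
      rw [hp.natDegree_mul Polynomial.monic_X, Polynomial.natDegree_X]
      exact Nat.le_add_left _ _
    obtain ⟨s, A, B, D, n, hs, hdvd, hD, hAB⟩ := exists_sqf45 hp' hp1
    refine ⟨s, A, B, D, n, hs, hD, hAB, ?_⟩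
    obtain ⟨Q, hQ⟩ := hdvd
    rw [← map_pow, hQ, map_mul, map_mul]
    exact I.mul_mem_right _ (I.mul_mem_right _ hpI)
  choose s A B D n hs hD hAB hsI using h1
  -- the polynomial `R`
  obtain ⟨E, hE⟩ : ∃ E : Polynomial κ, E = (∏ v, D v) * Polynomial.X := ⟨_, rfl⟩
  have hE0 : E ≠ 0 := by
    rw [hE]
    exact mul_ne_zero (Finset.prod_ne_zero_iff.2 fun v _ => hD v) Polynomial.X_ne_zero
  obtain ⟨R₀, hR₀⟩ : ∃ R₀ : Polynomial κ, R₀ = UniqueFactorizationMonoid.radical E := ⟨_, rfl⟩
  obtain ⟨e₁, he⟩ := UniqueFactorizationMonoid.exists_dvd_radical_self_pow hE0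
  rw [← hR₀] at he
  have hXR : Polynomial.X ∣ R₀ := by
    rw [hR₀]
    exact (UniqueFactorizationMonoid.dvd_radical_iff_of_irreducible Polynomial.irreducible_X hE0).2
      (by rw [hE]; exact Dvd.intro_left _ rfl)
  have hR₀0 : R₀ ≠ 0 := by rw [hR₀]; exact UniqueFactorizationMonoid.radical_ne_zero
  have hR₀1 : 1 ≤ R₀.natDegree := by
    have h1 := Polynomial.natDegree_le_of_dvd hXR hR₀0
    rwa [Polynomial.natDegree_X] at h1
  have hR₀s : R₀.Separable := by
    rw [PerfectField.separable_iff_squarefree, hR₀]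
    exact UniqueFactorizationMonoid.squarefree_radical
  obtain ⟨V, V', hV, hV', hVV'⟩ := PC.sep_bezout45 hR₀s hR₀1
  have hDR : ∀ v, ∃ Q : Polynomial κ, R₀ ^ e₁ = D v * Q := by
    intro v
    have h2 : D v ∣ E := by
      rw [hE]
      exact Dvd.dvd.mul_right (Finset.dvd_prod_of_mem D (Finset.mem_univ v)) _
    exact h2.trans he
  choose Q hQ using hDR
  -- the common exponent
  obtain ⟨e₂, he₂⟩ : ∃ e₂ : ℕ, e₂ = ∑ v, n v := ⟨_, rfl⟩
  have hsI' : ∀ v, subV N v (s v) ^ e₂ ∈ I := by
    intro v
    have h2 : n v ≤ e₂ := by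
      rw [he₂]
      exact Finset.single_le_sum (f := n) (fun _ _ => Nat.zero_le _) (Finset.mem_univ v)
    rw [← Nat.sub_add_cancel h2, pow_add]
    exact I.mul_mem_left _ (hsI v)
  rw [hI] at hsI'
  -- the bounds
  choose b₁ hb₁ using fun v => exists_monYX45 (hs v)
  choose b₂ hb₂ using fun v => exists_polYX45 (A v * Polynomial.C (Q v))
  choose b₃ hb₃ using fun v => exists_polYX45 (B v * Polynomial.C (Q v))
  choose b₄ hb₄ using fun v => mem_comb45 (hsI' v)
  obtain ⟨M₂, hM₂⟩ : ∃ M₂ : ℕ, M₂ = ∑ v, (b₁ v + b₂ v + b₃ v + b₄ v) := ⟨_, rfl⟩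
  have hb : ∀ v, b₁ v + b₂ v + b₃ v + b₄ v ≤ M₂ := by
    intro v
    rw [hM₂]
    exact Finset.single_le_sum (f := fun v => b₁ v + b₂ v + b₃ v + b₄ v)
      (fun _ _ => Nat.zero_le _) (Finset.mem_univ v)
  choose s' hs' using fun v => hb₁ v M₂ (by have := hb v; omega)
  choose A' hA' using fun v => hb₂ v M₂ (by have := hb v; omega)
  choose B' hB' using fun v => hb₃ v M₂ (by have := hb v; omega)
  choose H H' hH using fun v => hb₄ v M₂ (by have := hb v; omega)
  refine ⟨e₁, e₂, R₀.natDegree, M₂, fun v => (s v).natDegree, s', fun i => R₀.coeff i,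
    fun i => V.coeff i, fun i => V'.coeff i, A', B', H, H', hR₀1,
    Polynomial.leadingCoeff_ne_zero.2 hR₀0, ?_, fun v => ?_, fun v => ?_⟩
  · rw [polU_eq45 hV, polU_eq45 hV', polU_eq45 le_rfl, hVV']
  · rw [hA', hB', hs', polU_eq45 le_rfl, hQ, Polynomial.C_mul, ← hAB]
    ring
  · rw [hs', hH]

/-- **DISC.**  Every coordinate `x_v` is a root of a monic polynomial `S_v` over `k0[x]` which is separable
over `k0(x)`: `A_v S_v + B_v S_v' = R(x) ^ e`, `R` separable; `S_v(x, x_v) ^ e'` is a combination of the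
relations. -/
theorem exists_disc {S : Type u} [Field S] [CharZero S] {k0 : Subfield S}
    {N d : ℕ} {U : Type} [Fintype U] {e : U → ℕ}
    {f : MonV (N + 2) d → S} {rel : ∀ u, MonV (N + 2) (e u) → S} (hf : ∀ a, f a ∈ k0)
    (hrel : ∀ u a, rel u a ∈ k0) {M : ℕ} (hM : 1 ≤ M) (hfin : FinX f rel M) :
    ∃ (e₁ e₂ M₁ M₂ : ℕ) (ρ : Fin (N + 2) → ℕ) (s : ∀ v, Fin (ρ v) → Fin (M₂ + 1) → S)
      (R V V' : Fin (M₁ + 1) → S) (A B : Fin (N + 2) → Fin (M₂ + 1) → Fin (M₂ + 1) → S)
      (H : Fin (N + 2) → MonV (N + 2) M₂ → S) (H' : Fin (N + 2) → U → MonV (N + 2) M₂ → S),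
      1 ≤ M₁ ∧ R (Fin.last M₁) ≠ 0 ∧
      (∀ v j i, s v j i ∈ k0) ∧ (∀ i, R i ∈ k0) ∧ (∀ i, V i ∈ k0) ∧ (∀ i, V' i ∈ k0) ∧
      (∀ v j i, A v j i ∈ k0) ∧ (∀ v j i, B v j i ∈ k0) ∧
      polU V * polU R + polU V' * Polynomial.derivative (polU R) = 1 ∧
      (∀ v, polYX (A v) * monYX (s v) + polYX (B v) * Polynomial.derivative (monYX (s v)) =
        Polynomial.C (polU R ^ e₁)) ∧
      ∀ v, subV N v (monYX (s v)) ^ e₂ = comb f rel (H v) (H' v) := by
  have hc : CharZero k0 := (algebraMap k0 S).charZero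
  let f' : MonV (N + 2) d → k0 := fun a => ⟨f a, hf a⟩
  let rel' : ∀ u, MonV (N + 2) (e u) → k0 := fun u a => ⟨rel u a, hrel u a⟩
  have hfin' : FinX f' rel' M := finX_desc45 hfin
  obtain ⟨e₁, e₂, M₁, M₂, ρ, s, R, V, V', A, B, H, H', hM₁, hR, h1, h2, h3⟩ :=
    disc_core45 hM hfin'
  refine ⟨e₁, e₂, M₁, M₂, ρ, fun v j i => s v j i, fun i => R i, fun i => V i, fun i => V' i,
    fun v j i => A v j i, fun v j i => B v j i, fun v q => H v q, fun v u q => H' v u q, hM₁,
    fun h => hR (Subtype.ext h), fun v j i => (s v j i).2, fun i => (R i).2, fun i => (V i).2,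
    fun i => (V' i).2, fun v j i => (A v j i).2, fun v j i => (B v j i).2, ?_, fun v => ?_,
    fun v => ?_⟩
  · have h4 := congrArg (Polynomial.map k0.subtype) h1
    rw [Polynomial.map_add, Polynomial.map_mul, Polynomial.map_mul, Polynomial.map_one,
      ← Polynomial.derivative_map, map_polU45, map_polU45, map_polU45] at h4
    exact h4
  · have h4 := congrArg (Polynomial.map (Polynomial.mapRingHom k0.subtype)) (h2 v)
    rw [Polynomial.map_add, Polynomial.map_mul, Polynomial.map_mul, Polynomial.map_C,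
      ← Polynomial.derivative_map, map_polYX45, map_polYX45, map_monYX45,
      Polynomial.coe_mapRingHom, Polynomial.map_pow, map_polU45] at h4
    exact h4
  · have h4 := congrArg (MvPolynomial.map k0.subtype) (h3 v)
    rw [map_pow, map_subV45, map_monYX45, map_comb] at h4
    exact h4

end Pool.Agent.BT
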